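import Pool.Agent.J6H54.CH.Stm

/-!
# Project CH (MP_a1853d_al, helper54), module CH-03: values of words with a path in a strip
-/

set_option autoImplicit false

namespace Pool.Agent.J6H61.CH03

open Pool.Agent.J6H54.CH

section
variable {Λ : Type} [AddCommGroup Λ] {σ : Λ ≃ₗ[ℤ] Λ} {p q : Λ → ℝ} {κ M C0 : ℝ}

/-- `p` does not grow under nonpositive powers -/
theorem p_down (H : Hyp σ p q κ M C0) (m : ℤ) (hm : m ≤ 0) (x : Λ) : p ((σ ^ m) x) ≤ p x := by
  obtain ⟨n, hn⟩ : ∃ n : ℕ, m = -(n : ℤ) := ⟨m.natAbs, by omega⟩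
  rw [hn]
  refine (H.p_pow n x).trans ?_
  have h1 : κ ^ n ≤ 1 := pow_le_one₀ H.κ_pos.le H.κ_lt.le
  have h2 := mul_le_mul_of_nonneg_right h1 (H.p_nonneg x)
  linarith

/-- `q` does not grow under nonnegative powers -/
theorem q_down (H : Hyp σ p q κ M C0) (m : ℤ) (hm : 0 ≤ m) (x : Λ) : q ((σ ^ m) x) ≤ q x := by
  obtain ⟨n, hn⟩ : ∃ n : ℕ, m = (n : ℤ) := ⟨m.natAbs, by omega⟩
  rw [hn]
  refine (H.q_pow n x).trans ?_
  have h1 : κ ^ n ≤ 1 := pow_le_one₀ H.κ_pos.le H.κ_lt.le
  have h2 := mul_le_mul_of_nonneg_right h1 (H.q_nonneg x)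
  linarith

end

theorem m03 : S_in := by
  intro Λ _ σ T p q κ M C0 R H hB w lo hi
  induction w with
  | nil =>
    intro s _ _
    rw [val_nil]
    simp only [map_zero, List.length_nil, Nat.cast_zero, zero_mul]
    rw [H.p_zero, H.q_zero]
    exact ⟨le_rfl, le_rfl⟩
  | cons x w ih =>
    intro s hw hpath
    have hx : x ∈ T := hw x (by simp)
    have hw' : Wd T w := fun y hy => hw y (List.mem_cons_of_mem _ hy)
    have h0 := hpath 0 (by simp)
    simp only [List.take_zero, ht_nil, add_zero] at h0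
    obtain ⟨ih1, ih2⟩ := ih (s + x.2) hw' (by
      intro i hi
      have h1 := hpath (i + 1) (by simp; omega)
      rw [List.take_succ_cons, ht_cons, ← add_assoc] at h1
      exact h1)
    rw [val_cons, mul_fst]
    have hlen : (((x :: w).length : ℕ) : ℝ) * R = R + w.length * R := by
      rw [List.length_cons]
      push_cast
      ring
    rw [hlen]
    constructor
    · rw [map_add, ← pow_add_apply]
      have e : s - hi + x.2 = s + x.2 - hi := by ring
      rw [e]
      refine (H.p_add _ _).trans (add_le_add ?_ ih1)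
      exact (p_down H _ (by omega) _).trans (hB.p_le x hx)
    · rw [map_add, ← pow_add_apply]
      have e : s - lo + x.2 = s + x.2 - lo := by ring
      rw [e]
      refine (H.q_add _ _).trans (add_le_add ?_ ih2)
      exact (q_down H _ (by omega) _).trans (hB.q_le x hx)

end Pool.Agent.J6H61.CH03
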